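import Pool.Agent.LibUS10.Wreath
import Pool.Agent.LibUS10.Glue
import Pool.Agent.LibUS10.LInst
import Pool.Agent.LibUS10.Chain
import Pool.Agent.LibUS10.AbF
import Pool.Agent.LibUS10.LocNil

/-!
MP_199925_al: one countable periodic locally soluble group contains every countable periodic
locally soluble group all of whose chief factors have abelian-by-finite automizers.
-/

namespace Pool.Agent.Results.MP_199925_al.UniversalContainer

open Pool.Agent.LibUS10 Equiv
open scoped commutatorElement

/-- Every chief factor `M / N` of `H` is centralised by the derived subgroup of some subgroup `A`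
of finite index, that is, `H / C_H(M / N)` is abelian-by-finite. -/
def AbByFinAutomizers (H : Type) [Group H] : Prop :=
  ∀ M N : Subgroup H, IsChief M N → ∃ A : Subgroup H, A.FiniteIndex ∧ ⁅⁅A, A⁆, M⁆ ≤ N

/-- Parameters of a monomial type. -/
structure Idx where
  p : {p : ℕ // p.Prime}
  k : ℕ
  Q : {Q : Subgroup (Perm (Fin k)) // Group.IsSolvable Q}

theorem idx_countable : Countable Idx := by
  have h : Function.Injective (fun x : Idx => (⟨x.p, x.k, x.Q⟩ :
      Σ (_ : {p : ℕ // p.Prime}) (k : ℕ),
        {Q : Subgroup (Perm (Fin k)) // Group.IsSolvable Q})) := by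
    rintro ⟨p, k, Q⟩ ⟨p', k', Q'⟩ h
    simpa using h
  exact h.countable

theorem idx_nonempty : Nonempty Idx :=
  ⟨⟨⟨2, Nat.prime_two⟩, 0, ⟨⊥, inferInstance⟩⟩⟩

theorem exists_enum : ∃ e : ℕ → Idx, Function.Surjective e := by
  have := idx_countable
  have := idx_nonempty
  exact exists_surjective_nat Idx

/-- The monomial type with the given parameters. -/
noncomputable def tyOf (x : Idx) : LType :=
  haveI : Fact x.p.1.Prime := ⟨x.p.2⟩
  monoType x.p.1 x.k x.Q.1 x.Q.2

/-- The enumeration of the monomial types. -/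
noncomputable def Ty (n : ℕ) : LType := tyOf (exists_enum.choose n)

/-- The automizer of a finite chief factor is finite. -/
theorem finite_factor {H : Type} [Group H] {M N : Subgroup H} (hM : M.Normal) (hN : N.Normal)
    (hf : (N.subgroupOf M).FiniteIndex) :
    ∃ A : Subgroup H, A.FiniteIndex ∧ ⁅⁅A, A⁆, M⁆ ≤ N := by
  obtain ⟨K, hK⟩ : ∃ K, K = M.map (QuotientGroup.mk' N) := ⟨_, rfl⟩
  have hKn : K.Normal := by
    rw [hK]
    exact hM.map _ (QuotientGroup.mk'_surjective N)
  have hKf : Finite K := by
    let f : M →* H ⧸ N := (QuotientGroup.mk' N).comp M.subtype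
    have h1 : f.ker = N.subgroupOf M := by
      rw [← MonoidHom.comap_ker, QuotientGroup.ker_mk']
      rfl
    have h2 : f.range = K := by
      rw [hK, MonoidHom.range_comp, Subgroup.range_subtype]
    have h3 : Finite (M ⧸ f.ker) := by
      rw [h1]
      exact Subgroup.finite_quotient_of_finiteIndex
    have h4 : Finite f.range := Finite.of_equiv _ (QuotientGroup.quotientKerEquivRange f).toEquiv
    rwa [h2] at h4
  let ψ : H →* Perm K := (MulAut.toPerm K).comp ((MulAut.conjNormal (H := K)).comp
    (QuotientGroup.mk' N))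
  have hψ : ψ.ker.FiniteIndex := Subgroup.finiteIndex_ker ψ
  refine ⟨ψ.ker, hψ, ?_⟩
  have h1 : ⁅ψ.ker, M⁆ ≤ N := by
    rw [Subgroup.commutator_le]
    intro a ha m hm
    have h2 : QuotientGroup.mk' N m ∈ K := by
      rw [hK]
      exact Subgroup.mem_map_of_mem _ hm
    have h3 : ψ a ⟨QuotientGroup.mk' N m, h2⟩ = ⟨QuotientGroup.mk' N m, h2⟩ := by
      rw [MonoidHom.mem_ker.1 ha, Perm.one_apply]
    have h4 := congrArg Subtype.val h3
    have h5 : QuotientGroup.mk' N a * QuotientGroup.mk' N m * (QuotientGroup.mk' N a)⁻¹ =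
        QuotientGroup.mk' N m := h4
    have h6 : QuotientGroup.mk' N ⁅a, m⁆ = 1 := by
      rw [commutatorElement_def, map_mul, map_mul, map_mul, map_inv, map_inv, h5,
        mul_inv_cancel]
    rwa [← MonoidHom.mem_ker, QuotientGroup.ker_mk'] at h6
  exact (Subgroup.commutator_mono (Subgroup.commutator_le_left _ _) le_rfl).trans h1

/-- Chief factors of (locally nilpotent)-by-(abelian-by-finite) periodic locally soluble groups
have abelian-by-finite automizers. -/
theorem abByFin_of_locNil {H : Type} [Group H] (ht : ∀ h : H, IsOfFinOrder h)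
    (hs : LocSolvable H) (R A : Subgroup H) [R.Normal] (hR : LocNilpotent R) (hA : A.FiniteIndex)
    (hAR : ⁅A, A⁆ ≤ R) : AbByFinAutomizers H := fun _ _ hMN =>
  ⟨A, hA, (Subgroup.commutator_mono hAR le_rfl).trans
    (locNil_chief (locFinite_of_locSolvable ht hs) hMN R hR)⟩

/-- The case of a locally nilpotent derived subgroup. -/
theorem abByFin_of_commutator {H : Type} [Group H] (ht : ∀ h : H, IsOfFinOrder h)
    (hn : LocNilpotent (commutator H)) : LocSolvable H ∧ AbByFinAutomizers H :=
  ⟨locSolvable_of_commutator ht hn, abByFin_of_locNil ht (locSolvable_of_commutator ht hn)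
    (commutator H) ⊤ hn inferInstance le_rfl⟩

/-- The case of finite chief factors. -/
theorem abByFin_of_finite {H : Type} [Group H]
    (hf : ∀ M N : Subgroup H, IsChief M N → (N.subgroupOf M).FiniteIndex) :
    AbByFinAutomizers H := fun M N hMN =>
  finite_factor hMN.normal_top hMN.normal_bot (hf M N hMN)

theorem result :
    ∃ (U : Type) (_ : Group U), Countable U ∧ (∀ u : U, IsOfFinOrder u) ∧ LocSolvable U ∧
      ∀ (H : Type) [Group H], Countable H → (∀ h : H, IsOfFinOrder h) → LocSolvable H →
        AbByFinAutomizers H → ∃ f : H →* U, Function.Injective f := by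
  have hcI : Countable (ℚ ×ₗ ℕ) := inferInstanceAs (Countable (ℚ × ℕ))
  refine ⟨UG (fun i : ℚ ×ₗ ℕ => Ty (ofLex i).2), inferInstance, UG_countable _, UG_torsion _,
    UG_locSolvable _, fun H _ hc ht hs ha => ?_⟩
  have hF : Nonempty (Filt (fun i : ℚ ×ₗ ℕ => Ty (ofLex i).2) H) := by
    apply exists_filt Ty
    intro M N hMN
    obtain ⟨A, hA, hA'⟩ := ha M N hMN
    obtain ⟨p, hp, k, Q, hQ, ι, h1, h2, h3⟩ := abf_chief ht hs hMN A hA'
    obtain ⟨t, htt⟩ := exists_enum.choose_spec ⟨⟨p, hp.out⟩, k, ⟨Q, hQ⟩⟩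
    refine ⟨t, ?_⟩
    unfold Ty
    rw [htt]
    exact ⟨ι, h1, h2, h3⟩
  obtain ⟨F⟩ := hF
  exact exists_embedding F (locFinite_of_locSolvable ht hs)

end Pool.Agent.Results.MP_199925_al.UniversalContainer
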